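import Pool.Agent.H828.PA.Functor

set_option autoImplicit false

/-! # MP_27fe6f_al, Q1, in a stronger form: over every algebraically closed field `𝕜` of
cardinality `2 ^ κ`, `κ` infinite (in any characteristic, for instance `ℂ`), the proalgebraic
completion functor of finitely generated groups factors through the profinite completion

`𝕜` is an ultraproduct of fields `F_p^alg` with respect to a fine ultrafilter on the finite subsets
of a set of cardinality `κ`. Finite-dimensional representations over `𝕜` of a finitely generated
group are ultraproducts of representations with finite image, which extend to the profinite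
completion; the coordinate ring of the proalgebraic completion is an algebra of functions on the
profinite completion which does not depend on the dense subgroup. Continuous homomorphisms act on
these algebras by composition. -/

namespace Pool.Agent.Results.MP_27fe6f_al.FactorsThroughProfinite

open Pool.Agent.H828.PA

/-- Let `𝕜` be an algebraically closed field of cardinality `2 ^ κ` for some infinite `κ`.
(1) The proalgebraic completion over `𝕜` factors through the profinite completion. (2) Finitely
generated groups with isomorphic profinite completions have isomorphic proalgebraic completions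
over `𝕜`. (3) Every finitely generated residually finite group that is proalgebraically rigid over
`𝕜` is profinitely rigid. In particular this holds for `𝕜 = ℂ`. -/
theorem result :
    (∀ (𝕜 : Type) [Field 𝕜] [IsAlgClosed 𝕜] (X : Type) [Infinite X],
      Cardinal.mk 𝕜 = 2 ^ Cardinal.mk X →
      Nonempty (ProfiniteFactorization 𝕜) ∧
      (∀ (Γ Λ : Type) [Group Γ] [Group Λ] [Group.FG Γ] [Group.FG Λ],
        ProfinitelyIsomorphic Γ Λ → ProalgebraicallyIsomorphic 𝕜 Γ Λ) ∧
      (∀ (Λ : Type) [Group Λ] [Group.FG Λ] [Group.ResiduallyFinite Λ],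
        ProalgebraicallyRigid 𝕜 Λ → ProfinitelyRigid Λ)) ∧
    Nonempty (ProfiniteFactorization ℂ) ∧
    (∀ (Γ Λ : Type) [Group Γ] [Group Λ] [Group.FG Γ] [Group.FG Λ],
      ProfinitelyIsomorphic Γ Λ → ProalgebraicallyIsomorphic ℂ Γ Λ) ∧
    (∀ (Λ : Type) [Group Λ] [Group.FG Λ] [Group.ResiduallyFinite Λ],
      ProalgebraicallyRigid ℂ Λ → ProfinitelyRigid Λ) := by
  have key : ∀ (𝕜 : Type) [Field 𝕜] [IsAlgClosed 𝕜] (X : Type) [Infinite X],
      Cardinal.mk 𝕜 = 2 ^ Cardinal.mk X →
      Nonempty (ProfiniteFactorization 𝕜) ∧
      (∀ (Γ Λ : Type) [Group Γ] [Group Λ] [Group.FG Γ] [Group.FG Λ],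
        ProfinitelyIsomorphic Γ Λ → ProalgebraicallyIsomorphic 𝕜 Γ Λ) ∧
      (∀ (Λ : Type) [Group Λ] [Group.FG Λ] [Group.ResiduallyFinite Λ],
        ProalgebraicallyRigid 𝕜 Λ → ProfinitelyRigid Λ) := by
    intro 𝕜 _ _ X _ hX
    obtain ⟨u⟩ := exists_up 𝕜 X hX
    exact ⟨⟨factorization u⟩, fun Γ Λ _ _ _ _ h => main u Γ Λ h, fun Λ _ _ _ h => rigid u Λ h⟩
  refine ⟨key, key ℂ ℕ ?_⟩
  rw [Cardinal.mk_complex, Cardinal.mk_nat, Cardinal.two_power_aleph0]

end Pool.Agent.Results.MP_27fe6f_al.FactorsThroughProfinite
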